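import Mathlib

/-!
# Close pairs of primes with the middle near the values of almost every quadratic polynomial (MP_e94e4b_nt)

Statements of the pieces (helper91). Target: for almost all `(β, γ)`, `β > 0`, a positive lower density of the `N` is such that
`m ± j` are both prime for at least `c H / log² N` of the `1 ≤ j ≤ H`, where `m = ⌊β N² + γ N + g(N)⌋` and `H = H(N)` is
arbitrary between `log² N` and `N^(1-κ)`. (Q1 of the problem: `m = N² + N + 1`, `j ≤ N - 2`.)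
-/

set_option autoImplicit false

open MeasureTheory Filter Topology Finset

namespace Pool.Agent.Helper91K1.PQ

/-- the number of the `1 ≤ j ≤ H` with `m - j` and `m + j` both prime -/
def rp (H m : ℕ) : ℕ := ((Icc 1 H).filter (fun j => (m - j).Prime ∧ (m + j).Prime)).card

/-- the number of primes in `(a, a + L]` -/
def pb (a L : ℕ) : ℕ := ((Ioc a (a + L)).filter Nat.Prime).card

/-- SM: the second moment in an interval. Proof: `Pool.Agent.N530.QP.sv : Pool.Agent.N675.Q.S_SV` with `D = L`, `α = 1`, `A = 5` and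
the constant terms `a ± j, a ± j'` (`t = 4`, for `j ≠ j'`) resp. `a ± j` (`t = 2`, for `j = j'`), any fixed `w ≥ 2`, `δ = 1`; the weight
`om` is at least `Λ`, so at least `log L` at the primes `≥ L`; the singular factors are bounded on average over `j, j'` by
`Pool.Agent.R105.GD.exp_avg` and `exp (a+b+c+d) ≤ (exp 4a + … + exp 4d)/4`. -/
def S_SM : Prop := ∃ C : ℝ, 0 < C ∧ ∃ L₁ : ℕ, ∀ L : ℕ, L₁ ≤ L → ∀ a : ℕ, 2 * L ≤ a → a ≤ L ^ 4 → ∀ H : ℕ, H ≤ L →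
  ∑ m ∈ Ioc a (a + L), (rp H m : ℝ) ^ 2 ≤ C * L * ((H : ℝ) ^ 2 / Real.log L ^ 4 + H / Real.log L ^ 2)

/-- FM: the first moment. Proof: divide `(a, a + L]` into windows of length `H` (the last one may be shorter; at most `2 L / H`
windows); two different primes in the same window (all odd) are `m - j`, `m + j` with `m ∈ (a, a + L]`, `1 ≤ j ≤ H`; Cauchy–Schwarz. -/
def S_FM : Prop := ∀ c : ℝ, 0 < c → ∃ c' : ℝ, 0 < c' ∧ ∃ L₁ : ℕ, ∀ L : ℕ, L₁ ≤ L → ∀ a : ℕ, 2 ≤ a → ∀ H : ℕ,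
  Real.log L ^ 2 ≤ H → H ≤ L → c * L / Real.log L ≤ pb a L →
  c' * L * H / Real.log L ^ 2 ≤ ∑ m ∈ Ioc a (a + L), (rp H m : ℝ)

/-- GOOD: many good centres (from SM and FM, Cauchy–Schwarz) -/
def S_GOOD : Prop := ∀ c : ℝ, 0 < c → ∃ c₀ : ℝ, 0 < c₀ ∧ c₀ ≤ 1 ∧ ∃ L₁ : ℕ, ∀ L : ℕ, L₁ ≤ L → ∀ a : ℕ, 2 * L ≤ a → a ≤ L ^ 4 →
  ∀ H : ℕ, Real.log L ^ 2 ≤ H → H ≤ L → c * L / Real.log L ≤ pb a L →
  c₀ * L ≤ ((Ioc a (a + L)).filter (fun m => c₀ * H / Real.log L ^ 2 ≤ (rp H m : ℝ))).card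

/-- the length of the blocks -/
noncomputable def Lb (κ : ℝ) (X : ℕ) : ℕ := ⌊(X : ℝ) ^ (1 - κ)⌋₊

/-- EX: few poor blocks. Proof: `Pool.Agent.Q278.KT.mainp_half : Pool.Agent.Q240.KS.MAINP (1 / 2) 0.306` with `h = L`, `κ` at most
its `η` and at most `1 / 10`, for the `O(1)` many values `Y = log (b₁ X²) + i / 5`. -/
def S_EX : Prop := ∃ c κ : ℝ, 0 < c ∧ 0 < κ ∧ κ ≤ 1 / 10 ∧ ∀ b₁ b₂ : ℝ, 0 < b₁ → b₁ < b₂ → ∀ᶠ X : ℕ in atTop,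
  {k : ℕ | b₁ * (X : ℝ) ^ 2 ≤ k * Lb κ X ∧ ((k : ℝ) + 1) * Lb κ X ≤ b₂ * (X : ℝ) ^ 2 ∧
    (pb (k * Lb κ X) (Lb κ X) : ℝ) < c * Lb κ X / Real.log (Lb κ X)}.ncard ≤ (X : ℝ) ^ (3 / 4 : ℝ)

/-- the integer -/
noncomputable def mm (s : ℝ) (N : ℕ) (x : ℝ × ℝ) : ℤ := ⌊x.1 * (N : ℝ) ^ 2 + x.2 * N + s⌋

/-- the box -/
def box (b b' R : ℝ) : Set (ℝ × ℝ) := Set.Icc b b' ×ˢ Set.Icc (-R) R

/-- `A` has exactly `T` elements in each block `(k L, k L + L]` -/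
def Bal (L T : ℕ) (A : Set ℤ) : Prop := ∀ k : ℤ, (A ∩ Set.Ioc (k * L) (k * L + L)).ncard = T

/-- `A` has at most `T` elements in each block -/
def Sub (L T : ℕ) (A : Set ℤ) : Prop := ∀ k : ℤ, (A ∩ Set.Ioc (k * L) (k * L + L)).ncard ≤ T

/-- ONE: one integer, lower and upper bound (for fixed `x.2` the numbers `u = x.1 N² + …` run through an interval; whole blocks
contribute `T`, partial blocks between `0` and `T`) -/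
def S_ONE : Prop := ∀ b b' R : ℝ, b < b' → 0 < R → ∀ L T : ℕ, 1 ≤ L → T ≤ L → ∀ N : ℕ, 1 ≤ N → ∀ s : ℝ, ∀ A : Set ℤ,
  (Bal L T A → 2 * R * ((b' - b) * (T / L) - 2 * L / (N : ℝ) ^ 2) ≤ volume.real {x ∈ box b b' R | mm s N x ∈ A}) ∧
  (Sub L T A → volume.real {x ∈ box b b' R | mm s N x ∈ A} ≤ 2 * R * ((b' - b) * (T / L) + 2 * L / (N : ℝ) ^ 2))

/-- TWO: two integers, upper bound, in terms of the measure for one integer in a larger box. Proof: translate by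
`(t, - t N)`, `0 ≤ t ≤ η / N`: this does not change `x.1 N² + x.2 N` and moves `x.1 M² + x.2 M` by `t M (M - N)`; average over `t`
(Tonelli): for each `x` the `t` with `mm s' M (x + (t, -tN)) ∈ A'` have measure at most `(η / N) (T / L) + 2 L / (M |M - N|)`. -/
def S_TWO : Prop := ∀ b b' R η : ℝ, b < b' → 0 < R → 0 < η → ∀ L T : ℕ, 1 ≤ L → T ≤ L → ∀ N M : ℕ, 1 ≤ N → 1 ≤ M → N ≠ M →
  ∀ s s' : ℝ, ∀ A A' : Set ℤ, Sub L T A' →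
  volume.real {x ∈ box b b' R | mm s N x ∈ A ∧ mm s' M x ∈ A'} ≤
    ((T : ℝ) / L + 2 * L * N / (η * M * |(M : ℝ) - N|)) *
      volume.real {x ∈ box (b - η / N) b' (R + η) | mm s N x ∈ A}

/-- VAR: from ONE and TWO, Chebyshev's inequality at `X`: with `η = X^(-κ/4)` and `L = Lb κ X`, `T ≥ ρ L`; all `N, M ∈ (X, 2 X]` -/
def S_VAR : Prop := ∀ b b' R κ ρ : ℝ, 0 < b → b < b' → 0 < R → 0 < κ → κ < 1 → 0 < ρ → ∃ C : ℝ, ∃ X₀ : ℕ, ∀ X : ℕ, X₀ ≤ X →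
  ∀ T : ℕ, T ≤ Lb κ X → ρ * Lb κ X ≤ T → ∀ g : ℕ → ℝ, ∀ A : ℕ → Set ℤ, (∀ N, Bal (Lb κ X) T (A N)) →
  volume.real {x ∈ box b b' R | ({N ∈ (Ioc X (2 * X) : Set ℕ) | mm (g N) N x ∈ A N}.ncard : ℝ) < ρ / 2 * X} ≤
    C * (X : ℝ) ^ (-(κ / 5))

/-- POOR: Markov's inequality for the integers in few blocks -/
def S_POOR : Prop := ∀ b b' R κ ρ : ℝ, 0 < b → b < b' → 0 < R → 0 < κ → κ < 1 → 0 < ρ → ∃ C : ℝ, ∃ X₀ : ℕ, ∀ X : ℕ, X₀ ≤ X →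
  ∀ g : ℕ → ℝ, ∀ P : Finset ℤ, (P.card : ℝ) ≤ (X : ℝ) ^ (3 / 4 : ℝ) →
  volume.real {x ∈ box b b' R | ρ * X ≤ ({N ∈ (Ioc X (2 * X) : Set ℕ) |
      ∃ k ∈ P, mm (g N) N x ∈ Set.Ioc (k * (Lb κ X : ℤ)) (k * (Lb κ X : ℤ) + Lb κ X)}.ncard : ℝ)} ≤
    C * (X : ℝ) ^ (-(1 / 5) : ℝ)

/-- the property of `N` -/
def Good (c : ℝ) (H : ℕ → ℕ) (g : ℕ → ℝ) (x : ℝ × ℝ) (N : ℕ) : Prop :=
  c * H N / Real.log N ^ 2 ≤ (rp (H N) (mm (g N) N x).toNat : ℝ)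

/-- the target -/
def Target : Prop := ∃ c κ : ℝ, 0 < c ∧ 0 < κ ∧ κ < 1 ∧ ∀ (H : ℕ → ℕ) (g : ℕ → ℝ),
  (∀ᶠ N : ℕ in atTop, Real.log N ^ 2 ≤ H N ∧ (H N : ℝ) ≤ (N : ℝ) ^ (1 - κ)) →
  Tendsto (fun N : ℕ => g N / (N : ℝ) ^ 2) atTop (𝓝 0) →
  ∀ᵐ x : ℝ × ℝ, 0 < x.1 → ∀ᶠ X : ℕ in atTop, c * X ≤ {N : ℕ | 1 ≤ N ∧ N ≤ X ∧ Good c H g x N}.ncard

end Pool.Agent.Helper91K1.PQ
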