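import Pool.Agent.Helper91K1.PQ.Two2

set_option autoImplicit false

open MeasureTheory Filter Topology

namespace Pool.Agent.Helper91K1.PQ

theorem count_mono {c c' : ℝ} (hc : c ≤ c') (H : ℕ → ℕ) (g : ℕ → ℝ) (x : ℝ × ℝ) (X : ℕ)
    (h : c' * X ≤ {N : ℕ | 1 ≤ N ∧ N ≤ X ∧ Good c' H g x N}.ncard) :
    c * X ≤ {N : ℕ | 1 ≤ N ∧ N ≤ X ∧ Good c H g x N}.ncard := by
  have h1 : {N : ℕ | 1 ≤ N ∧ N ≤ X ∧ Good c' H g x N} ⊆ {N : ℕ | 1 ≤ N ∧ N ≤ X ∧ Good c H g x N} := by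
    rintro N ⟨a1, a2, a3⟩
    refine ⟨a1, a2, ?_⟩
    unfold Good at a3 ⊢
    refine le_trans ?_ a3
    have hHN : (0 : ℝ) ≤ H N := by positivity
    gcongr
  have hfin : {N : ℕ | 1 ≤ N ∧ N ≤ X ∧ Good c H g x N}.Finite := (Set.finite_Iic X).subset fun N hN => hN.2.1
  have h2 : ({N : ℕ | 1 ≤ N ∧ N ≤ X ∧ Good c' H g x N}.ncard : ℝ) ≤
      ({N : ℕ | 1 ≤ N ∧ N ≤ X ∧ Good c H g x N}.ncard : ℝ) := by
    exact_mod_cast Set.ncard_le_ncard h1 hfin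
  have h3 : c * X ≤ c' * X := by gcongr
  linarith

theorem both (h1 : Target) (h2 : Target2) : ∃ c κ : ℝ, 0 < c ∧ 0 < κ ∧ κ < 1 ∧ ∀ (H : ℕ → ℕ) (g : ℕ → ℝ) (G : ℝ),
    (∀ᶠ N : ℕ in atTop, Real.log N ^ 2 ≤ H N ∧ (H N : ℝ) ≤ (N : ℝ) ^ (1 - κ)) →
    (∀ᶠ N : ℕ in atTop, |g N| ≤ G * N) →
    (∀ β : ℝ, 0 < β → ∀ᵐ γ : ℝ, ∃ᶠ X : ℕ in atTop, c * X ≤ {N : ℕ | 1 ≤ N ∧ N ≤ X ∧ Good c H g (β, γ) N}.ncard) ∧
    ∀ᵐ x : ℝ × ℝ, 0 < x.1 → ∀ᶠ X : ℕ in atTop, c * X ≤ {N : ℕ | 1 ≤ N ∧ N ≤ X ∧ Good c H g x N}.ncard := by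
  obtain ⟨c₁, κ₁, a1, a2, a3, h1⟩ := h1
  obtain ⟨c₂, κ₂, b1, b2, b3, h2⟩ := h2
  refine ⟨min c₁ c₂, max κ₁ κ₂, lt_min a1 b1, lt_max_of_lt_left a2, max_lt a3 b3, fun H g G hH hg => ?_⟩
  have hH1 : ∀ᶠ N : ℕ in atTop, Real.log N ^ 2 ≤ H N ∧ (H N : ℝ) ≤ (N : ℝ) ^ (1 - κ₁) := by
    filter_upwards [hH, eventually_ge_atTop 1] with N hN hN1
    have hN1' : (1 : ℝ) ≤ N := by exact_mod_cast hN1
    refine ⟨hN.1, hN.2.trans (Real.rpow_le_rpow_of_exponent_le hN1' ?_)⟩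
    have := le_max_left κ₁ κ₂
    linarith
  have hH2 : ∀ᶠ N : ℕ in atTop, Real.log N ^ 2 ≤ H N ∧ (H N : ℝ) ≤ (N : ℝ) ^ (1 - κ₂) := by
    filter_upwards [hH, eventually_ge_atTop 1] with N hN hN1
    have hN1' : (1 : ℝ) ≤ N := by exact_mod_cast hN1
    refine ⟨hN.1, hN.2.trans (Real.rpow_le_rpow_of_exponent_le hN1' ?_)⟩
    have := le_max_right κ₁ κ₂
    linarith
  have hgt : Tendsto (fun N : ℕ => g N / (N : ℝ) ^ 2) atTop (𝓝 0) := by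
    have h1 : Tendsto (fun N : ℕ => |G| * (N : ℝ)⁻¹) atTop (𝓝 (|G| * 0)) :=
      (tendsto_inv_atTop_nhds_zero_nat).const_mul _
    rw [mul_zero] at h1
    apply squeeze_zero_norm' _ h1
    filter_upwards [hg, eventually_ge_atTop 1] with N hN hN1
    have hN0 : (0 : ℝ) < N := by exact_mod_cast hN1
    rw [Real.norm_eq_abs, abs_div, abs_of_pos (by positivity : (0 : ℝ) < (N : ℝ) ^ 2), div_le_iff₀ (by positivity)]
    refine hN.trans ?_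
    have : |G| * (N : ℝ)⁻¹ * (N : ℝ) ^ 2 = |G| * N := by field_simp
    rw [this]
    gcongr
    exact le_abs_self G
  constructor
  · intro β hβ
    filter_upwards [h2 H g G hH2 hg β hβ] with γ hγ
    exact hγ.mono fun X hX => count_mono (min_le_right _ _) H g (β, γ) X hX
  · filter_upwards [h1 H g hH1 hgt] with x hx hx1
    exact (hx hx1).mono fun X hX => count_mono (min_le_left _ _) H g x X hX

end Pool.Agent.Helper91K1.PQ
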