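import Pool.Agent.Helper91K1.PQ.Hit

set_option autoImplicit false

open MeasureTheory Filter Topology Finset

namespace Pool.Agent.Helper91K1.PQ

theorem box_meas (b b' R : ℝ) : volume (box b b' R) ≠ ⊤ := by
  have : IsCompact (box b b' R) := isCompact_Icc.prod isCompact_Icc
  exact this.measure_lt_top.ne

/-- Borel–Cantelli along the powers of two -/
theorem bc (b b' R C δ : ℝ) (hδ : 0 < δ) (i₀ : ℕ) (E : ℕ → Set (ℝ × ℝ)) (hE : ∀ i, E i ⊆ box b b' R)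
    (h : ∀ i, i₀ ≤ i → volume.real (E i) ≤ C * (((2 : ℕ) ^ i : ℕ) : ℝ) ^ (-δ)) :
    ∀ᵐ x : ℝ × ℝ, ∀ᶠ i in atTop, x ∉ E i := by
  have hC : 0 ≤ C ∨ C < 0 := le_or_gt 0 C
  set r : ℝ := (2 : ℝ) ^ (-δ) with hr
  have hr0 : 0 < r := by positivity
  have hr1 : r < 1 := Real.rpow_lt_one_of_one_lt_of_neg (by norm_num) (by linarith)
  have hpow : ∀ i : ℕ, (((2 : ℕ) ^ i : ℕ) : ℝ) ^ (-δ) = r ^ i := by
    intro i
    push_cast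
    rw [hr, ← Real.rpow_natCast, ← Real.rpow_mul (by norm_num), ← Real.rpow_natCast, ← Real.rpow_mul (by norm_num)]
    congr 1; ring
  have hsum : Summable (fun i : ℕ => |C| * r ^ i) := (summable_geometric_of_lt_one hr0.le hr1).mul_left _
  have hfin : ∑' i, volume (E (i + i₀)) ≠ ⊤ := by
    have h1 : ∀ i, volume (E (i + i₀)) ≤ ENNReal.ofReal (|C| * r ^ (i + i₀)) := by
      intro i
      have hne : volume (E (i + i₀)) ≠ ⊤ := measure_ne_top_of_subset (hE _) (box_meas b b' R)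
      rw [← ENNReal.ofReal_toReal hne]
      apply ENNReal.ofReal_le_ofReal
      refine (h (i + i₀) (by omega)).trans ?_
      rw [hpow]
      gcongr
      exact le_abs_self C
    have hs2 : Summable (fun i : ℕ => |C| * r ^ (i + i₀)) :=
      (summable_nat_add_iff (f := fun i : ℕ => |C| * r ^ i) i₀).2 hsum
    refine ne_top_of_le_ne_top ?_ (ENNReal.tsum_le_tsum h1)
    rw [← ENNReal.ofReal_tsum_of_nonneg (fun i => by positivity) hs2]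
    exact ENNReal.ofReal_ne_top
  have h2 := ae_eventually_notMem hfin
  filter_upwards [h2] with x hx
  rw [eventually_atTop] at hx ⊢
  obtain ⟨a, ha⟩ := hx
  refine ⟨a + i₀, fun i hi => ?_⟩
  have := ha (i - i₀) (by omega)
  rwa [show i - i₀ + i₀ = i by omega] at this

/-- dyadic statement for one box -/
theorem dyadic (hE : S_EX) (hG : S_GOOD) (hV : S_VAR) (hP : S_POOR) : ∃ c₀ κ : ℝ, 0 < c₀ ∧ 0 < κ ∧ κ ≤ 1 / 10 ∧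
    ∀ (H : ℕ → ℕ) (g : ℕ → ℝ),
      (∀ᶠ N : ℕ in atTop, Real.log N ^ 2 ≤ H N ∧ (H N : ℝ) ≤ (N : ℝ) ^ (1 - 2 * κ)) →
      Tendsto (fun N : ℕ => g N / (N : ℝ) ^ 2) atTop (𝓝 0) → ∀ b b' R : ℝ, 0 < b → b < b' → 0 < R →
      ∀ᵐ x : ℝ × ℝ, x ∈ box b b' R → ∀ᶠ i : ℕ in atTop,
        c₀ / 4 * ((2 ^ i : ℕ) : ℝ) ≤ {N : ℕ | 2 ^ i < N ∧ N ≤ 2 * 2 ^ i ∧ Good c₀ H g x N}.ncard := by
  classical
  obtain ⟨c₁, κ, hc₁, hκ, hκ2, hE⟩ := hE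
  obtain ⟨c₀, hc₀, hc₀1, L₁, hG⟩ := hG c₁ hc₁
  refine ⟨c₀, κ, hc₀, hκ, hκ2, fun H g hH hg b b' R hb hbb hR => ?_⟩
  obtain ⟨b₁, b₂, hb₁, hb₂, hhit⟩ := hit b b' R κ c₁ c₀ L₁ hb hbb hR hκ hκ2 hG H g hH hg
  obtain ⟨CV, XV, hV⟩ := hV b b' R κ c₀ hb hbb hR hκ (by linarith) hc₀
  obtain ⟨CP, XP, hP⟩ := hP b b' R κ (c₀ / 4) hb hbb hR hκ (by linarith) (by positivity)
  obtain ⟨X₁, hX₁⟩ := eventually_atTop.1 (hhit.and ((hE b₁ b₂ hb₁ hb₂).and (Lb_ev κ 1 (max L₁ 3) hκ hκ2)))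
  -- the sets
  have hsets : ∀ X : ℕ, ∃ (T : ℕ) (A : ℕ → Set ℤ) (P : Finset ℤ), max X₁ (max XV XP) ≤ X →
      T ≤ Lb κ X ∧ c₀ * Lb κ X ≤ T ∧ (∀ N, Bal (Lb κ X) T (A N)) ∧ (P.card : ℝ) ≤ (X : ℝ) ^ (3 / 4 : ℝ) ∧
      ∀ N : ℕ, X < N → N ≤ 2 * X → ∀ x ∈ box b b' R, mm (g N) N x ∈ A N →
        (¬ ∃ k ∈ P, mm (g N) N x ∈ Set.Ioc (k * (Lb κ X : ℤ)) (k * (Lb κ X : ℤ) + Lb κ X)) → Good c₀ H g x N := by
    intro X
    by_cases hX : max X₁ (max XV XP) ≤ X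
    swap
    · exact ⟨0, fun _ => ∅, ∅, fun h => absurd h hX⟩
    obtain ⟨h1, h2, hL1, hLb, hLc, -, -⟩ := hX₁ X ((le_max_left _ _).trans hX)
    set L := Lb κ X with hL
    have hLr : (1 : ℝ) ≤ L := by exact_mod_cast hLb
    have hTL : ⌈c₀ * L⌉₊ ≤ L := by
      apply Nat.ceil_le.2
      nlinarith
    obtain ⟨A, hA1, hA2⟩ := exists_A c₀ H L ⌈c₀ * L⌉₊ hLb hTL
    set S : Set ℕ := {k : ℕ | b₁ * (X : ℝ) ^ 2 ≤ k * L ∧ ((k : ℝ) + 1) * L ≤ b₂ * (X : ℝ) ^ 2 ∧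
      (pb (k * L) L : ℝ) < c₁ * L / Real.log L} with hS
    have hSfin : S.Finite := by
      apply (Set.finite_Iic ⌊b₂ * (X : ℝ) ^ 2⌋₊).subset
      intro k hk
      apply Nat.le_floor
      have := hk.2.1
      have hk0 : (0 : ℝ) ≤ k := by positivity
      nlinarith
    refine ⟨⌈c₀ * L⌉₊, A, hSfin.toFinset.image (fun k : ℕ => (k : ℤ)), fun _ => ⟨hTL, Nat.le_ceil _, hA1, ?_, ?_⟩⟩
    · refine le_trans ?_ h2
      rw [Set.ncard_eq_toFinset_card S hSfin]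
      exact_mod_cast Finset.card_image_le
    · intro N hN1 hN2 x hx hz hnP
      obtain ⟨k, hk1, hk2, hk3, hk4⟩ := h1 N hN1 hN2 x hx
      have hk : c₁ * L / Real.log L ≤ (pb (k * L) L : ℝ) := by
        by_contra hcon
        push Not at hcon
        apply hnP
        refine ⟨k, ?_, hk1⟩
        rw [Finset.mem_image]
        refine ⟨k, ?_, rfl⟩
        rw [Set.Finite.mem_toFinset]
        exact ⟨hk2, hk3, hcon⟩
      have h5 := hk4 hk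
      have h6 : ⌈c₀ * L⌉₊ ≤ ((Ioc (k * L) (k * L + L)).filter
          (fun m => c₀ * H N / Real.log L ^ 2 ≤ (rp (H N) m : ℝ))).card := Nat.ceil_le.2 h5
      have h7 := hA2 N k h6 _ hz hk1
      unfold Good
      refine le_trans ?_ h7
      have hLN : (L : ℝ) ≤ N := by
        have : L ≤ N := by omega
        exact_mod_cast this
      have h8 : 3 ≤ L := (le_max_right _ _).trans hL1
      have h9 : (3 : ℝ) ≤ L := by exact_mod_cast h8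
      have hLl : 0 < Real.log L := Real.log_pos (by linarith)
      have : Real.log L ≤ Real.log N := Real.log_le_log (by linarith) hLN
      gcongr
  choose T A P hTAP using hsets
  set XM := max X₁ (max XV XP) with hXM
  set E : ℕ → Set (ℝ × ℝ) := fun i =>
    {x ∈ box b b' R | ({N ∈ (Ioc (2 ^ i) (2 * 2 ^ i) : Set ℕ) | mm (g N) N x ∈ A (2 ^ i) N}.ncard : ℝ) <
      c₀ / 2 * ((2 ^ i : ℕ) : ℝ)} ∪
    {x ∈ box b b' R | c₀ / 4 * ((2 ^ i : ℕ) : ℝ) ≤ ({N ∈ (Ioc (2 ^ i) (2 * 2 ^ i) : Set ℕ) |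
      ∃ k ∈ P (2 ^ i), mm (g N) N x ∈ Set.Ioc (k * (Lb κ (2 ^ i) : ℤ)) (k * (Lb κ (2 ^ i) : ℤ) + Lb κ (2 ^ i))}.ncard : ℝ)}
    with hEdef
  have hEbox : ∀ i, E i ⊆ box b b' R := by
    intro i x hx
    rcases hx with hx | hx
    · exact hx.1
    · exact hx.1
  have hpow : ∀ i : ℕ, i ≤ 2 ^ i := fun i => Nat.lt_two_pow_self.le
  have hbound : ∀ i, XM ≤ i → volume.real (E i) ≤ (|CV| + |CP|) * (((2 : ℕ) ^ i : ℕ) : ℝ) ^ (-(κ / 5)) := by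
    intro i hi
    have hX : XM ≤ 2 ^ i := hi.trans (hpow i)
    obtain ⟨t1, t2, t3, t4, -⟩ := hTAP (2 ^ i) hX
    have e1 := hV (2 ^ i) ((le_max_left _ _).trans ((le_max_right _ _).trans hX)) (T (2 ^ i)) t1 t2 g (A (2 ^ i)) t3
    have e2 := hP (2 ^ i) ((le_max_right _ _).trans ((le_max_right _ _).trans hX)) g (P (2 ^ i)) t4
    have hX1 : (1 : ℝ) ≤ ((2 ^ i : ℕ) : ℝ) := by exact_mod_cast Nat.one_le_two_pow
    have e3 : ((2 ^ i : ℕ) : ℝ) ^ (-(1 / 5) : ℝ) ≤ ((2 ^ i : ℕ) : ℝ) ^ (-(κ / 5)) :=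
      Real.rpow_le_rpow_of_exponent_le hX1 (by linarith)
    refine (measureReal_union_le _ _).trans ?_
    have e4 : CV * ((2 ^ i : ℕ) : ℝ) ^ (-(κ / 5)) ≤ |CV| * ((2 ^ i : ℕ) : ℝ) ^ (-(κ / 5)) := by
      gcongr; exact le_abs_self _
    have e5 : CP * ((2 ^ i : ℕ) : ℝ) ^ (-(1 / 5) : ℝ) ≤ |CP| * ((2 ^ i : ℕ) : ℝ) ^ (-(κ / 5)) := by
      calc CP * ((2 ^ i : ℕ) : ℝ) ^ (-(1 / 5) : ℝ) ≤ |CP| * ((2 ^ i : ℕ) : ℝ) ^ (-(1 / 5) : ℝ) := by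
            gcongr; exact le_abs_self _
        _ ≤ _ := by gcongr
    rw [add_mul]
    exact add_le_add (e1.trans e4) (e2.trans e5)
  have hbc := bc b b' R (|CV| + |CP|) (κ / 5) (by positivity) XM E hEbox hbound
  filter_upwards [hbc] with x hx hxb
  filter_upwards [hx, eventually_ge_atTop XM] with i hi hiX
  have hX : XM ≤ 2 ^ i := hiX.trans (hpow i)
  obtain ⟨t1, t2, t3, t4, t5⟩ := hTAP (2 ^ i) hX
  have n1 : c₀ / 2 * ((2 ^ i : ℕ) : ℝ) ≤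
      ({N ∈ (Ioc (2 ^ i) (2 * 2 ^ i) : Set ℕ) | mm (g N) N x ∈ A (2 ^ i) N}.ncard : ℝ) := by
    by_contra hcon
    push Not at hcon
    exact hi (Or.inl ⟨hxb, hcon⟩)
  have n2 : ({N ∈ (Ioc (2 ^ i) (2 * 2 ^ i) : Set ℕ) | ∃ k ∈ P (2 ^ i), mm (g N) N x ∈
      Set.Ioc (k * (Lb κ (2 ^ i) : ℤ)) (k * (Lb κ (2 ^ i) : ℤ) + Lb κ (2 ^ i))}.ncard : ℝ) <
        c₀ / 4 * ((2 ^ i : ℕ) : ℝ) := by
    by_contra hcon
    push Not at hcon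
    exact hi (Or.inr ⟨hxb, hcon⟩)
  have hfinG : {N : ℕ | 2 ^ i < N ∧ N ≤ 2 * 2 ^ i ∧ Good c₀ H g x N}.Finite :=
    (Set.finite_Iic (2 * 2 ^ i)).subset fun N hN => hN.2.1
  have hfinP : {N ∈ (Ioc (2 ^ i) (2 * 2 ^ i) : Set ℕ) | ∃ k ∈ P (2 ^ i), mm (g N) N x ∈
      Set.Ioc (k * (Lb κ (2 ^ i) : ℤ)) (k * (Lb κ (2 ^ i) : ℤ) + Lb κ (2 ^ i))}.Finite :=
    (Finset.finite_toSet _).subset fun N hN => hN.1
  have hsub : {N ∈ (Ioc (2 ^ i) (2 * 2 ^ i) : Set ℕ) | mm (g N) N x ∈ A (2 ^ i) N} ⊆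
      {N : ℕ | 2 ^ i < N ∧ N ≤ 2 * 2 ^ i ∧ Good c₀ H g x N} ∪
      {N ∈ (Ioc (2 ^ i) (2 * 2 ^ i) : Set ℕ) | ∃ k ∈ P (2 ^ i), mm (g N) N x ∈
        Set.Ioc (k * (Lb κ (2 ^ i) : ℤ)) (k * (Lb κ (2 ^ i) : ℤ) + Lb κ (2 ^ i))} := by
    intro N hN
    obtain ⟨hN1, hN2⟩ := hN
    have hN3 : 2 ^ i < N ∧ N ≤ 2 * 2 ^ i := by
      have := hN1
      rw [Finset.mem_coe, Finset.mem_Ioc] at this
      exact this
    by_cases h : ∃ k ∈ P (2 ^ i), mm (g N) N x ∈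
        Set.Ioc (k * (Lb κ (2 ^ i) : ℤ)) (k * (Lb κ (2 ^ i) : ℤ) + Lb κ (2 ^ i))
    · exact Or.inr ⟨hN1, h⟩
    · exact Or.inl ⟨hN3.1, hN3.2, t5 N hN3.1 hN3.2 x hxb hN2 h⟩
  have hle := (Set.ncard_le_ncard hsub (hfinG.union hfinP)).trans (Set.ncard_union_le _ _)
  have hle' : ({N ∈ (Ioc (2 ^ i) (2 * 2 ^ i) : Set ℕ) | mm (g N) N x ∈ A (2 ^ i) N}.ncard : ℝ) ≤
      ({N : ℕ | 2 ^ i < N ∧ N ≤ 2 * 2 ^ i ∧ Good c₀ H g x N}.ncard : ℝ) +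
      ({N ∈ (Ioc (2 ^ i) (2 * 2 ^ i) : Set ℕ) | ∃ k ∈ P (2 ^ i), mm (g N) N x ∈
        Set.Ioc (k * (Lb κ (2 ^ i) : ℤ)) (k * (Lb κ (2 ^ i) : ℤ) + Lb κ (2 ^ i))}.ncard : ℝ) := by
    exact_mod_cast hle
  linarith

/-- the target from the pieces -/
theorem target_of (hE : S_EX) (hG : S_GOOD) (hV : S_VAR) (hP : S_POOR) : Target := by
  obtain ⟨c₀, κ, hc₀, hκ, hκ2, hD⟩ := dyadic hE hG hV hP
  refine ⟨c₀ / 16, 2 * κ, by positivity, by linarith, by linarith, fun H g hH hg => ?_⟩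
  have hall : ∀ᵐ x : ℝ × ℝ, ∀ n : ℕ, x ∈ box (1 / ((n : ℝ) + 2)) (n + 2) (n + 1) → ∀ᶠ i : ℕ in atTop,
        c₀ / 4 * ((2 ^ i : ℕ) : ℝ) ≤ {N : ℕ | 2 ^ i < N ∧ N ≤ 2 * 2 ^ i ∧ Good c₀ H g x N}.ncard := by
    rw [ae_all_iff]
    intro n
    refine hD H g hH hg _ _ _ (by positivity) ?_ (by positivity)
    have hn : (0 : ℝ) ≤ n := by positivity
    rw [div_lt_iff₀ (by linarith)]
    nlinarith
  filter_upwards [hall] with x hx hx1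
  obtain ⟨n, hn⟩ := exists_nat_ge (max (max (1 / x.1) x.1) |x.2|)
  have h1 : 1 / x.1 ≤ n := (le_max_left _ _).trans ((le_max_left _ _).trans hn)
  have h2 : x.1 ≤ n := (le_max_right _ _).trans ((le_max_left _ _).trans hn)
  have h3 : |x.2| ≤ n := (le_max_right _ _).trans hn
  have hbox : x ∈ box (1 / ((n : ℝ) + 2)) (n + 2) (n + 1) := by
    obtain ⟨h4, h5⟩ := abs_le.1 h3
    refine ⟨⟨?_, by linarith⟩, by linarith, by linarith⟩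
    rw [div_le_iff₀ (by positivity)]
    rw [div_le_iff₀ hx1] at h1
    nlinarith
  obtain ⟨i₀, hi₀⟩ := eventually_atTop.1 (hx n hbox)
  filter_upwards [eventually_ge_atTop (2 ^ (i₀ + 1))] with X hX
  have hX0 : X ≠ 0 := by
    have : 0 < 2 ^ (i₀ + 1) := by positivity
    omega
  have hj1 : 2 ^ Nat.log 2 X ≤ X := Nat.pow_log_le_self 2 hX0
  have hj2 : X < 2 ^ (Nat.log 2 X + 1) := Nat.lt_pow_succ_log_self (by norm_num) X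
  have hj3 : i₀ + 1 ≤ Nat.log 2 X := (Nat.le_log_iff_pow_le (by norm_num) hX0).2 hX
  obtain ⟨i, hi⟩ : ∃ i, Nat.log 2 X = i + 1 := ⟨Nat.log 2 X - 1, by omega⟩
  rw [hi] at hj1 hj2 hj3
  have h4 := hi₀ i (by omega)
  have h5 : {N : ℕ | 2 ^ i < N ∧ N ≤ 2 * 2 ^ i ∧ Good c₀ H g x N} ⊆ {N : ℕ | 1 ≤ N ∧ N ≤ X ∧ Good (c₀ / 16) H g x N} := by
    rintro N ⟨a1, a2, a3⟩
    refine ⟨by omega, by rw [pow_succ] at hj1; omega, ?_⟩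
    unfold Good at a3 ⊢
    refine le_trans ?_ a3
    have hHN : (0 : ℝ) ≤ H N := by positivity
    gcongr
    linarith
  have hfin : {N : ℕ | 1 ≤ N ∧ N ≤ X ∧ Good (c₀ / 16) H g x N}.Finite := (Set.finite_Iic X).subset fun N hN => hN.2.1
  have h6 : ({N : ℕ | 2 ^ i < N ∧ N ≤ 2 * 2 ^ i ∧ Good c₀ H g x N}.ncard : ℝ) ≤
      ({N : ℕ | 1 ≤ N ∧ N ≤ X ∧ Good (c₀ / 16) H g x N}.ncard : ℝ) := by
    exact_mod_cast Set.ncard_le_ncard h5 hfin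
  refine le_trans ?_ (h4.trans h6)
  have h7 : (X : ℝ) ≤ 4 * ((2 ^ i : ℕ) : ℝ) := by
    have : X ≤ 4 * 2 ^ i := by
      have e : 2 ^ (i + 1 + 1) = 4 * 2 ^ i := by ring
      omega
    exact_mod_cast this
  calc c₀ / 16 * (X : ℝ) ≤ c₀ / 16 * (4 * ((2 ^ i : ℕ) : ℝ)) := by gcongr
    _ = c₀ / 4 * ((2 ^ i : ℕ) : ℝ) := by ring

end Pool.Agent.Helper91K1.PQ
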