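import Pool.Agent.Helper91K1.PQ.GOOD

set_option autoImplicit false

open MeasureTheory Filter Topology Finset

namespace Pool.Agent.Helper91K1.PQ

/-- thinning -/
theorem thin (L T : ℕ) (hL : 1 ≤ L) (hT : T ≤ L) (G : Set ℤ) : ∃ A : Set ℤ, Bal L T A ∧
    ∀ k : ℤ, T ≤ (G ∩ Set.Ioc (k * L) (k * L + L)).ncard → A ∩ Set.Ioc (k * L) (k * L + L) ⊆ G := by
  classical
  have hfin : ∀ k : ℤ, (Set.Ioc (k * (L : ℤ)) (k * L + L)).Finite := fun k => Set.finite_Ioc _ _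
  have hcard : ∀ k : ℤ, (Set.Ioc (k * (L : ℤ)) (k * L + L)).ncard = L := by
    intro k
    rw [← Finset.coe_Ioc, Set.ncard_coe_finset, Int.card_Ioc]
    simp
  have hex : ∀ k : ℤ, ∃ S : Set ℤ, S ⊆ Set.Ioc (k * (L : ℤ)) (k * L + L) ∧ S.ncard = T ∧
      (T ≤ (G ∩ Set.Ioc (k * L) (k * L + L)).ncard → S ⊆ G) := by
    intro k
    by_cases h : T ≤ (G ∩ Set.Ioc (k * (L : ℤ)) (k * L + L)).ncard
    · obtain ⟨S, hS1, hS2⟩ := Set.exists_subset_card_eq h
      exact ⟨S, hS1.trans Set.inter_subset_right, hS2, fun _ => hS1.trans Set.inter_subset_left⟩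
    · obtain ⟨S, hS1, hS2⟩ := Set.exists_subset_card_eq (s := Set.Ioc (k * (L : ℤ)) (k * L + L)) (n := T)
        (by rw [hcard]; exact hT)
      exact ⟨S, hS1, hS2, fun h' => absurd h' h⟩
  choose S hS1 hS2 hS3 using hex
  have hinter : ∀ k : ℤ, (⋃ j, S j) ∩ Set.Ioc (k * (L : ℤ)) (k * L + L) = S k := by
    intro k
    ext z
    constructor
    · rintro ⟨hz, hz2⟩
      obtain ⟨j, hj⟩ := Set.mem_iUnion.1 hz
      have h1 := hS1 j hj
      have : j = k := by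
        obtain ⟨a1, a2⟩ := h1
        obtain ⟨b1, b2⟩ := hz2
        have hLp : (0 : ℤ) < L := by exact_mod_cast hL
        have e1 : j < k + 1 := by
          by_contra hcon
          push Not at hcon
          nlinarith
        have e2 : k < j + 1 := by
          by_contra hcon
          push Not at hcon
          nlinarith
        omega
      rw [← this]; exact hj
    · intro hz
      exact ⟨Set.mem_iUnion.2 ⟨k, hz⟩, hS1 k hz⟩
  refine ⟨⋃ j, S j, fun k => ?_, fun k hk => ?_⟩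
  · rw [hinter, hS2]
  · rw [hinter]; exact hS3 k hk

/-- the block of an integer -/
theorem block (L : ℕ) (hL : 1 ≤ L) (m : ℤ) : ∃ k : ℤ, m ∈ Set.Ioc (k * L) (k * L + L) := by
  refine ⟨(m - 1) / L, ?_, ?_⟩
  · have h2 : (m - 1) / (L : ℤ) * L ≤ m - 1 := Int.ediv_mul_le _ (by positivity)
    omega
  · have hLp : (0 : ℤ) < L := by exact_mod_cast hL
    have := Int.lt_ediv_add_one_mul_self (m - 1) hLp
    have e : ((m - 1) / (L : ℤ) + 1) * L = (m - 1) / (L : ℤ) * L + L := by ring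
    rw [e] at this
    omega

/-- the sets of the thinned good integers -/
theorem exists_A (c₀ : ℝ) (H : ℕ → ℕ) (L T : ℕ) (hL : 1 ≤ L) (hT : T ≤ L) : ∃ A : ℕ → Set ℤ, (∀ N, Bal L T (A N)) ∧
    ∀ (N : ℕ) (k : ℕ), T ≤ ((Ioc (k * L) (k * L + L)).filter
      (fun m => c₀ * H N / Real.log L ^ 2 ≤ (rp (H N) m : ℝ))).card →
      ∀ z ∈ A N, z ∈ Set.Ioc ((k : ℤ) * L) (k * L + L) → c₀ * H N / Real.log L ^ 2 ≤ (rp (H N) z.toNat : ℝ) := by
  classical
  have h := fun N : ℕ => thin L T hL hT {z : ℤ | 0 ≤ z ∧ c₀ * H N / Real.log L ^ 2 ≤ (rp (H N) z.toNat : ℝ)}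
  choose A hA1 hA2 using h
  refine ⟨A, hA1, fun N k hk z hz hz2 => ?_⟩
  have h3 := hA2 N (k : ℤ) (by
    refine hk.trans ?_
    have hfin : ({z : ℤ | 0 ≤ z ∧ c₀ * H N / Real.log L ^ 2 ≤ (rp (H N) z.toNat : ℝ)} ∩
        Set.Ioc ((k : ℤ) * L) (k * L + L)).Finite := (Set.finite_Ioc _ _).subset Set.inter_subset_right
    have hinj : Function.Injective (fun m : ℕ => (m : ℤ)) := Nat.cast_injective
    rw [← Finset.card_image_of_injective _ hinj, ← Set.ncard_coe_finset]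
    apply Set.ncard_le_ncard _ hfin
    intro y hy
    simp only [coe_image, coe_filter, mem_Ioc, Set.mem_image, Set.mem_ofPred_eq] at hy
    obtain ⟨m, ⟨⟨h1, h2⟩, h3⟩, rfl⟩ := hy
    refine ⟨⟨by positivity, by simpa using h3⟩, ?_, ?_⟩
    · exact_mod_cast h1
    · exact_mod_cast h2)
  exact (h3 ⟨hz, hz2⟩).2

end Pool.Agent.Helper91K1.PQ
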