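import Pool.Agent.Helper91K1.PQ.Stm

set_option autoImplicit false

open Finset

namespace Pool.Agent.Helper91K1.PQ

theorem t_GOOD (hS : S_SM) (hF : S_FM) : S_GOOD := by
  intro c hc
  obtain ⟨C, hC, L₁, hS⟩ := hS
  obtain ⟨c', hc', L₂, hF⟩ := hF c hc
  refine ⟨min 1 (min (c' / 2) (c' ^ 2 / (8 * C))), by positivity, min_le_left _ _, max (max L₁ L₂) 3, ?_⟩
  intro L hL a ha1 ha2 H hH1 hH2 hp
  set c₀ := min 1 (min (c' / 2) (c' ^ 2 / (8 * C))) with hc₀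
  have hc₀p : 0 < c₀ := by positivity
  have hc1 : c₀ ≤ c' / 2 := (min_le_right _ _).trans (min_le_left _ _)
  have hc2 : c₀ ≤ c' ^ 2 / (8 * C) := (min_le_right _ _).trans (min_le_right _ _)
  have hL1 : L₁ ≤ L := le_trans (le_trans (le_max_left _ _) (le_max_left _ _)) hL
  have hL2 : L₂ ≤ L := le_trans (le_trans (le_max_right _ _) (le_max_left _ _)) hL
  have hL3 : 3 ≤ L := le_trans (le_max_right _ _) hL
  have hLr : (3 : ℝ) ≤ L := by exact_mod_cast hL3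
  have hlog : 0 < Real.log L := Real.log_pos (by linarith)
  have h2 : 0 < Real.log L ^ 2 := by positivity
  have hHr : 0 < (H : ℝ) := lt_of_lt_of_le h2 hH1
  have hsm := hS L hL1 a ha1 ha2 H hH2
  have hfm := hF L hL2 a (by omega) H hH1 hH2 hp
  set B := Ioc a (a + L) with hB
  set G := B.filter (fun m => c₀ * H / Real.log L ^ 2 ≤ (rp H m : ℝ)) with hG
  have hsplit : ∑ m ∈ B, (rp H m : ℝ) = ∑ m ∈ G, (rp H m : ℝ) +
      ∑ m ∈ B.filter (fun m => ¬ c₀ * H / Real.log L ^ 2 ≤ (rp H m : ℝ)), (rp H m : ℝ) :=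
    (sum_filter_add_sum_filter_not _ _ _).symm
  have hsmall : ∑ m ∈ B.filter (fun m => ¬ c₀ * H / Real.log L ^ 2 ≤ (rp H m : ℝ)), (rp H m : ℝ) ≤
      c' / 2 * L * H / Real.log L ^ 2 := by
    have h1 : ∑ m ∈ B.filter (fun m => ¬ c₀ * H / Real.log L ^ 2 ≤ (rp H m : ℝ)), (rp H m : ℝ) ≤
        (B.filter (fun m => ¬ c₀ * H / Real.log L ^ 2 ≤ (rp H m : ℝ))).card • (c₀ * H / Real.log L ^ 2) := by
      apply sum_le_card_nsmul
      intro m hm
      exact (not_le.1 (mem_filter.1 hm).2).le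
    have h3 : ((B.filter (fun m => ¬ c₀ * H / Real.log L ^ 2 ≤ (rp H m : ℝ))).card : ℝ) ≤ L := by
      have : (B.filter (fun m => ¬ c₀ * H / Real.log L ^ 2 ≤ (rp H m : ℝ))).card ≤ B.card := card_filter_le _ _
      have hBc : B.card = L := by rw [hB, Nat.card_Ioc]; omega
      rw [hBc] at this
      exact_mod_cast this
    rw [nsmul_eq_mul] at h1
    refine h1.trans ?_
    have h4 : c₀ * H / Real.log L ^ 2 ≤ c' / 2 * H / Real.log L ^ 2 := by gcongr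
    calc ((B.filter (fun m => ¬ c₀ * H / Real.log L ^ 2 ≤ (rp H m : ℝ))).card : ℝ) * (c₀ * H / Real.log L ^ 2)
        ≤ L * (c' / 2 * H / Real.log L ^ 2) := by
          apply mul_le_mul h3 h4 (by positivity) (by positivity)
      _ = c' / 2 * L * H / Real.log L ^ 2 := by ring
  have hbig : c' / 2 * L * H / Real.log L ^ 2 ≤ ∑ m ∈ G, (rp H m : ℝ) := by
    have : c' * L * H / Real.log L ^ 2 = c' / 2 * L * H / Real.log L ^ 2 + c' / 2 * L * H / Real.log L ^ 2 := by ring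
    linarith
  have hcs : (∑ m ∈ G, (rp H m : ℝ)) ^ 2 ≤ G.card * ∑ m ∈ G, (rp H m : ℝ) ^ 2 := sq_sum_le_card_mul_sum_sq
  have hsub : ∑ m ∈ G, (rp H m : ℝ) ^ 2 ≤ ∑ m ∈ B, (rp H m : ℝ) ^ 2 :=
    sum_le_sum_of_subset_of_nonneg (filter_subset _ _) (fun _ _ _ => by positivity)
  have hratio : (H : ℝ) / Real.log L ^ 2 ≤ (H : ℝ) ^ 2 / Real.log L ^ 4 := by
    have h1 : 1 ≤ (H : ℝ) / Real.log L ^ 2 := (one_le_div h2).2 hH1
    have e : (H : ℝ) ^ 2 / Real.log L ^ 4 = ((H : ℝ) / Real.log L ^ 2) * ((H : ℝ) / Real.log L ^ 2) := by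
      field_simp
    rw [e]
    nlinarith
  have hlow : (c' / 2 * L * H / Real.log L ^ 2) ^ 2 ≤ (∑ m ∈ G, (rp H m : ℝ)) ^ 2 := by
    apply pow_le_pow_left₀ (by positivity) hbig
  have hkey : (c' / 2 * L * H / Real.log L ^ 2) ^ 2 ≤ G.card * (2 * C * L * ((H : ℝ) ^ 2 / Real.log L ^ 4)) := by
    refine hlow.trans (hcs.trans ?_)
    apply mul_le_mul_of_nonneg_left _ (by positivity)
    refine hsub.trans (hsm.trans ?_)
    have : C * L * ((H : ℝ) ^ 2 / Real.log L ^ 4 + H / Real.log L ^ 2) ≤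
        C * L * ((H : ℝ) ^ 2 / Real.log L ^ 4 + (H : ℝ) ^ 2 / Real.log L ^ 4) := by gcongr
    linarith
  have e1 : (c' / 2 * L * H / Real.log L ^ 2) ^ 2 = (c' ^ 2 / 4 * L) * (L * ((H : ℝ) ^ 2 / Real.log L ^ 4)) := by
    field_simp
    ring
  have e2 : (G.card : ℝ) * (2 * C * L * ((H : ℝ) ^ 2 / Real.log L ^ 4)) =
      (2 * C * G.card) * (L * ((H : ℝ) ^ 2 / Real.log L ^ 4)) := by ring
  rw [e1, e2] at hkey
  have hpos : 0 < (L : ℝ) * ((H : ℝ) ^ 2 / Real.log L ^ 4) := by positivity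
  have hfin := le_of_mul_le_mul_right hkey hpos
  have h5 : c' ^ 2 / (8 * C) * L ≤ G.card := by
    rw [div_mul_eq_mul_div, div_le_iff₀ (by positivity)]
    nlinarith
  calc c₀ * L ≤ c' ^ 2 / (8 * C) * L := by gcongr
    _ ≤ G.card := h5

end Pool.Agent.Helper91K1.PQ
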