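import Pool.Agent.Helper91K1.PQ.Fin

set_option autoImplicit false

open MeasureTheory Filter Topology Finset

namespace Pool.Agent.Helper91K1.PQ

/-- growth of the length of the blocks -/
theorem Lb_ev (κ B : ℝ) (L₀ : ℕ) (hκ : 0 < κ) (hκ2 : κ ≤ 1 / 10) : ∀ᶠ X : ℕ in atTop,
    L₀ ≤ Lb κ X ∧ 1 ≤ Lb κ X ∧ Lb κ X ≤ X ∧ B * (X : ℝ) ^ 2 ≤ (Lb κ X : ℝ) ^ 4 ∧
    (2 * (X : ℝ)) ^ (1 - 2 * κ) ≤ (X : ℝ) ^ (1 - κ) := by
  have h1 : Tendsto (fun X : ℕ => (X : ℝ) ^ (1 / 10 : ℝ)) atTop atTop :=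
    (tendsto_rpow_atTop (by norm_num)).comp tendsto_natCast_atTop_atTop
  have h2 : Tendsto (fun X : ℕ => (X : ℝ) ^ κ) atTop atTop :=
    (tendsto_rpow_atTop hκ).comp tendsto_natCast_atTop_atTop
  have h3 : Tendsto (fun X : ℕ => (X : ℝ)) atTop atTop := tendsto_natCast_atTop_atTop
  have h4 : Tendsto (fun X : ℕ => (X : ℝ) ^ (3 / 4 : ℝ)) atTop atTop :=
    (tendsto_rpow_atTop (by norm_num)).comp tendsto_natCast_atTop_atTop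
  filter_upwards [h1.eventually_ge_atTop 2, h2.eventually_ge_atTop 2, h3.eventually_ge_atTop (max B 2),
    h4.eventually_ge_atTop (max (L₀ : ℝ) 1)] with X a1 a2 a3 a4
  have hX2 : (2 : ℝ) ≤ X := (le_max_right _ _).trans a3
  have hXB : B ≤ X := (le_max_left _ _).trans a3
  have hX0 : (0 : ℝ) < X := by linarith
  have hX1 : (1 : ℝ) ≤ X := by linarith
  have hL0 : (L₀ : ℝ) ≤ (X : ℝ) ^ (3 / 4 : ℝ) := (le_max_left _ _).trans a4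
  have hL1 : (1 : ℝ) ≤ (X : ℝ) ^ (3 / 4 : ℝ) := (le_max_right _ _).trans a4
  have hup : (X : ℝ) ^ (1 - κ) ≤ X := by
    calc (X : ℝ) ^ (1 - κ) ≤ (X : ℝ) ^ (1 : ℝ) := Real.rpow_le_rpow_of_exponent_le hX1 (by linarith)
      _ = X := Real.rpow_one _
  have hlow : (X : ℝ) ^ (3 / 4 : ℝ) + 1 ≤ (X : ℝ) ^ (1 - κ) := by
    have e1 : (X : ℝ) ^ (3 / 4 : ℝ) * (X : ℝ) ^ (1 / 10 : ℝ) ≤ (X : ℝ) ^ (1 - κ) := by
      rw [← Real.rpow_add hX0]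
      exact Real.rpow_le_rpow_of_exponent_le hX1 (by linarith)
    nlinarith
  have hLlow : (X : ℝ) ^ (3 / 4 : ℝ) ≤ Lb κ X := by
    have := Nat.sub_one_lt_floor ((X : ℝ) ^ (1 - κ))
    unfold Lb
    linarith
  refine ⟨?_, ?_, ?_, ?_, ?_⟩
  · exact_mod_cast hL0.trans hLlow
  · exact_mod_cast hL1.trans hLlow
  · have : (Lb κ X : ℝ) ≤ X := (Nat.floor_le (by positivity)).trans hup
    exact_mod_cast this
  · have e1 : ((X : ℝ) ^ (3 / 4 : ℝ)) ^ 4 = (X : ℝ) ^ 3 := by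
      rw [← Real.rpow_natCast, ← Real.rpow_mul hX0.le]
      norm_num
    calc B * (X : ℝ) ^ 2 ≤ X * (X : ℝ) ^ 2 := by gcongr
      _ = (X : ℝ) ^ 3 := by ring
      _ = ((X : ℝ) ^ (3 / 4 : ℝ)) ^ 4 := e1.symm
      _ ≤ (Lb κ X : ℝ) ^ 4 := by gcongr
  · rw [Real.mul_rpow (by norm_num) hX0.le]
    have e1 : (2 : ℝ) ^ (1 - 2 * κ) ≤ 2 := by
      calc (2 : ℝ) ^ (1 - 2 * κ) ≤ (2 : ℝ) ^ (1 : ℝ) := Real.rpow_le_rpow_of_exponent_le (by norm_num) (by linarith)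
        _ = 2 := Real.rpow_one _
    calc (2 : ℝ) ^ (1 - 2 * κ) * (X : ℝ) ^ (1 - 2 * κ) ≤ (X : ℝ) ^ κ * (X : ℝ) ^ (1 - 2 * κ) := by
          apply mul_le_mul_of_nonneg_right (e1.trans a2) (by positivity)
      _ = (X : ℝ) ^ (1 - κ) := by
          rw [← Real.rpow_add hX0]; congr 1; ring

theorem hit (b b' R κ c₁ c₀ : ℝ) (L₁ : ℕ) (hb : 0 < b) (hbb : b < b') (hR : 0 < R) (hκ : 0 < κ) (hκ2 : κ ≤ 1 / 10)
    (hG : ∀ L : ℕ, L₁ ≤ L → ∀ a : ℕ, 2 * L ≤ a → a ≤ L ^ 4 →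
      ∀ H : ℕ, Real.log L ^ 2 ≤ H → H ≤ L → c₁ * L / Real.log L ≤ pb a L →
      c₀ * L ≤ ((Ioc a (a + L)).filter (fun m => c₀ * H / Real.log L ^ 2 ≤ (rp H m : ℝ))).card)
    (H : ℕ → ℕ) (g : ℕ → ℝ)
    (hH : ∀ᶠ N : ℕ in atTop, Real.log N ^ 2 ≤ H N ∧ (H N : ℝ) ≤ (N : ℝ) ^ (1 - 2 * κ))
    (hg : Tendsto (fun N : ℕ => g N / (N : ℝ) ^ 2) atTop (𝓝 0)) :
    ∃ b₁ b₂ : ℝ, 0 < b₁ ∧ b₁ < b₂ ∧ ∀ᶠ X : ℕ in atTop, ∀ N : ℕ, X < N → N ≤ 2 * X → ∀ x ∈ box b b' R,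
      ∃ k : ℕ, mm (g N) N x ∈ Set.Ioc ((k : ℤ) * (Lb κ X : ℤ)) (k * (Lb κ X : ℤ) + Lb κ X) ∧
        b₁ * (X : ℝ) ^ 2 ≤ k * Lb κ X ∧ ((k : ℝ) + 1) * Lb κ X ≤ b₂ * (X : ℝ) ^ 2 ∧
        (c₁ * Lb κ X / Real.log (Lb κ X) ≤ (pb (k * Lb κ X) (Lb κ X) : ℝ) →
          c₀ * Lb κ X ≤ ((Ioc (k * Lb κ X) (k * Lb κ X + Lb κ X)).filter
            (fun m => c₀ * H N / Real.log (Lb κ X) ^ 2 ≤ (rp (H N) m : ℝ))).card) := by
  refine ⟨b / 4, 4 * b' + 2 * b + 1, by positivity, by linarith, ?_⟩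
  have hg' : ∀ᶠ N : ℕ in atTop, |g N / (N : ℝ) ^ 2| ≤ b / 4 := by
    refine Tendsto.eventually_le_const (v := |(0 : ℝ)|) ?_ hg.abs
    rw [abs_zero]; positivity
  obtain ⟨N₁, hN₁⟩ := eventually_atTop.1 hH
  obtain ⟨N₂, hN₂⟩ := eventually_atTop.1 hg'
  have h3 : Tendsto (fun X : ℕ => (X : ℝ)) atTop atTop := tendsto_natCast_atTop_atTop
  filter_upwards [Lb_ev κ (4 * b' + 2 * b + 1) L₁ hκ hκ2, eventually_ge_atTop N₁, eventually_ge_atTop N₂,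
    h3.eventually_ge_atTop (max (max (4 * R / b) (8 / b)) (max 2 (8 / b + 4 / b)))] with X hL hXN1 hXN2 hX
  obtain ⟨hLa, hLb, hLc, hLd, hLe⟩ := hL
  intro N hN1 hN2 x hx
  have hXR : 4 * R / b ≤ X := (le_max_left _ _).trans ((le_max_left _ _).trans hX)
  have hX8 : 8 / b ≤ X := (le_max_right _ _).trans ((le_max_left _ _).trans hX)
  have hX2 : (2 : ℝ) ≤ X := (le_max_left _ _).trans ((le_max_right _ _).trans hX)
  have hX12 : 8 / b + 4 / b ≤ X := (le_max_right _ _).trans ((le_max_right _ _).trans hX)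
  have hX0 : (0 : ℝ) < X := by linarith
  have hNX : (X : ℝ) < N := by exact_mod_cast hN1
  have hN2X : (N : ℝ) ≤ 2 * X := by exact_mod_cast hN2
  have hN0 : (0 : ℝ) < N := by linarith
  set L := Lb κ X with hLdef
  have hLX : (L : ℝ) ≤ X := by exact_mod_cast hLc
  have hL1 : (1 : ℝ) ≤ L := by exact_mod_cast hLb
  have hgN : |g N| ≤ b / 4 * (N : ℝ) ^ 2 := by
    have h := hN₂ N (by omega)
    rw [abs_div, abs_of_pos (by positivity : (0 : ℝ) < (N : ℝ) ^ 2), div_le_iff₀ (by positivity)] at h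
    exact h
  obtain ⟨hg1, hg2⟩ := abs_le.1 hgN
  obtain ⟨hx1, hx2⟩ := hx
  obtain ⟨hxa, hxb⟩ := hx1
  obtain ⟨hxc, hxd⟩ := hx2
  have hRN : R * N ≤ b / 4 * (N : ℝ) ^ 2 := by
    have : 4 * R ≤ b * X := by rw [div_le_iff₀ hb] at hXR; linarith
    nlinarith
  have hlo : b / 2 * (N : ℝ) ^ 2 ≤ x.1 * (N : ℝ) ^ 2 + x.2 * N + g N := by
    have e1 : b * (N : ℝ) ^ 2 ≤ x.1 * (N : ℝ) ^ 2 := by gcongr
    have e2 : -(R * N) ≤ x.2 * N := by nlinarith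
    nlinarith
  have hhi : x.1 * (N : ℝ) ^ 2 + x.2 * N + g N ≤ (b' + b / 2) * (N : ℝ) ^ 2 := by
    have e1 : x.1 * (N : ℝ) ^ 2 ≤ b' * (N : ℝ) ^ 2 := by gcongr
    have e2 : x.2 * N ≤ R * N := by gcongr
    nlinarith
  set z := mm (g N) N x with hz
  have hz1 : b / 2 * (N : ℝ) ^ 2 - 1 < z := by
    have := Int.sub_one_lt_floor (x.1 * (N : ℝ) ^ 2 + x.2 * N + g N)
    have e : (z : ℝ) = (⌊x.1 * (N : ℝ) ^ 2 + x.2 * N + g N⌋ : ℝ) := rfl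
    rw [e]; linarith
  have hz2 : (z : ℝ) ≤ (b' + b / 2) * (N : ℝ) ^ 2 := by
    have := Int.floor_le (x.1 * (N : ℝ) ^ 2 + x.2 * N + g N)
    have e : (z : ℝ) = (⌊x.1 * (N : ℝ) ^ 2 + x.2 * N + g N⌋ : ℝ) := rfl
    rw [e]; linarith
  obtain ⟨k, hk1, hk2⟩ := block L hLb z
  have hk1r : ((k : ℝ)) * L < z := by exact_mod_cast hk1
  have hk2r : (z : ℝ) ≤ k * L + L := by exact_mod_cast hk2
  have hNsq : (X : ℝ) ^ 2 ≤ (N : ℝ) ^ 2 := by gcongr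
  have hNsq2 : (N : ℝ) ^ 2 ≤ 4 * (X : ℝ) ^ 2 := by nlinarith
  have hb12 : 12 ≤ b * X := by
    rw [← add_div, div_le_iff₀ hb] at hX12; linarith
  have hkL : b / 4 * (X : ℝ) ^ 2 ≤ k * L := by nlinarith
  have hkL2 : ((k : ℝ) + 1) * L ≤ (4 * b' + 2 * b + 1) * (X : ℝ) ^ 2 := by nlinarith
  have hk0 : 0 ≤ k := by
    by_contra hcon
    push Not at hcon
    have : (k : ℝ) ≤ -1 := by exact_mod_cast (by omega : k ≤ -1)
    nlinarith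
  obtain ⟨k', rfl⟩ := Int.eq_ofNat_of_zero_le hk0
  refine ⟨k', ⟨hk1, hk2⟩, by push_cast at hkL; exact hkL, by push_cast at hkL2; exact hkL2, fun hpb => ?_⟩
  push_cast at hkL hkL2
  obtain ⟨hH1, hH2⟩ := hN₁ N (by omega)
  have hlog : Real.log L ^ 2 ≤ H N := by
    refine le_trans ?_ hH1
    have : Real.log L ≤ Real.log N := Real.log_le_log (by linarith) (by linarith)
    have h0 : 0 ≤ Real.log L := Real.log_nonneg hL1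
    gcongr
  have hHL : H N ≤ L := by
    apply Nat.le_floor
    refine hH2.trans (le_trans ?_ hLe)
    apply Real.rpow_le_rpow hN0.le hN2X (by linarith)
  refine hG L hLa (k' * L) ?_ ?_ (H N) hlog hHL hpb
  · have : (2 * (L : ℝ)) ≤ k' * L := by nlinarith
    exact_mod_cast this
  · have h5 : (k' * L : ℝ) ≤ (L : ℝ) ^ 4 := by
      refine le_trans ?_ hLd
      nlinarith
    exact_mod_cast h5

end Pool.Agent.Helper91K1.PQ
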