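import Pool.Agent.Helper91K1.PQ.Dy
import Pool.Agent.Helper15.PQ.FM
import Pool.Agent.Hx18.PQ.SM
import Pool.Agent.Helper20.PQ.EX
import Pool.Agent.Helper64.PQ.ONE
import Pool.Agent.Helper98.PQ.TWO
import Pool.Agent.Helper11X.PQ.VAR
import Pool.Agent.Helper31.PQ.POOR

set_option autoImplicit false

open MeasureTheory Filter Topology

namespace Pool.Agent.Helper91K1.PQ

theorem main_of (h : Target) : ∃ c κ : ℝ, 0 < c ∧ 0 < κ ∧ κ < 1 ∧ ∀ (H : ℕ → ℕ) (g : ℕ → ℝ),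
    (∀ᶠ N : ℕ in atTop, Real.log N ^ 2 ≤ H N ∧ (H N : ℝ) ≤ (N : ℝ) ^ (1 - κ)) →
    Tendsto (fun N : ℕ => g N / (N : ℝ) ^ 2) atTop (𝓝 0) →
    ∀ᵐ x : ℝ × ℝ, 0 < x.1 → ∀ᶠ X : ℕ in atTop, c * X ≤ {N : ℕ | 1 ≤ N ∧ N ≤ X ∧
      c * H N / Real.log N ^ 2 ≤ ((Finset.Icc 1 (H N)).filter (fun j =>
        (⌊x.1 * (N : ℝ) ^ 2 + x.2 * N + g N⌋₊ - j).Prime ∧
        (⌊x.1 * (N : ℝ) ^ 2 + x.2 * N + g N⌋₊ + j).Prime)).card}.ncard := h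

theorem main : ∃ c κ : ℝ, 0 < c ∧ 0 < κ ∧ κ < 1 ∧ ∀ (H : ℕ → ℕ) (g : ℕ → ℝ),
    (∀ᶠ N : ℕ in atTop, Real.log N ^ 2 ≤ H N ∧ (H N : ℝ) ≤ (N : ℝ) ^ (1 - κ)) →
    Tendsto (fun N : ℕ => g N / (N : ℝ) ^ 2) atTop (𝓝 0) →
    ∀ᵐ x : ℝ × ℝ, 0 < x.1 → ∀ᶠ X : ℕ in atTop, c * X ≤ {N : ℕ | 1 ≤ N ∧ N ≤ X ∧
      c * H N / Real.log N ^ 2 ≤ ((Finset.Icc 1 (H N)).filter (fun j =>
        (⌊x.1 * (N : ℝ) ^ 2 + x.2 * N + g N⌋₊ - j).Prime ∧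
        (⌊x.1 * (N : ℝ) ^ 2 + x.2 * N + g N⌋₊ + j).Prime)).card}.ncard :=
  main_of (target_of Pool.Agent.Helper20.PQ.t_EX
    (t_GOOD Pool.Agent.Hx18.PQ.t_SM Pool.Agent.Helper15.PQ.t_FM)
    (Pool.Agent.Helper11X.PQ.t_VAR Pool.Agent.Helper64.PQ.t_ONE Pool.Agent.Helper98.PQ.t_TWO)
    Pool.Agent.Helper31.PQ.t_POOR)

end Pool.Agent.Helper91K1.PQ
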