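import Pool.Agent.Helper91K1.PQ.Both
import Pool.Agent.Helper15.PQ.FM
import Pool.Agent.Hx18.PQ.SM
import Pool.Agent.Helper20.PQ.EX
import Pool.Agent.Helper64.PQ.ONE
import Pool.Agent.Helper98.PQ.TWO
import Pool.Agent.Helper11X.PQ.VAR
import Pool.Agent.Helper31.PQ.POOR
import Pool.Agent.Helper62K5.PQ.LIN
import Pool.Agent.Helper95.PQ.Lim
import Pool.Agent.Helper61A.PQ.AVG
import Pool.Agent.Helper27.PQ.RNG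

set_option autoImplicit false

open MeasureTheory Filter Topology

namespace Pool.Agent.Helper91K1.PQ

theorem main3 : ∃ c κ : ℝ, 0 < c ∧ 0 < κ ∧ κ < 1 ∧ ∀ (H : ℕ → ℕ) (g : ℕ → ℝ) (G : ℝ),
    (∀ᶠ N : ℕ in atTop, Real.log N ^ 2 ≤ H N ∧ (H N : ℝ) ≤ (N : ℝ) ^ (1 - κ)) →
    (∀ᶠ N : ℕ in atTop, |g N| ≤ G * N) →
    (∀ β : ℝ, 0 < β → ∀ᵐ γ : ℝ, ∃ᶠ X : ℕ in atTop, c * X ≤ {N : ℕ | 1 ≤ N ∧ N ≤ X ∧ Good c H g (β, γ) N}.ncard) ∧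
    ∀ᵐ x : ℝ × ℝ, 0 < x.1 → ∀ᶠ X : ℕ in atTop, c * X ≤ {N : ℕ | 1 ≤ N ∧ N ≤ X ∧ Good c H g x N}.ncard :=
  both
    (target_of Pool.Agent.Helper20.PQ.t_EX
      (t_GOOD Pool.Agent.Hx18.PQ.t_SM Pool.Agent.Helper15.PQ.t_FM)
      (Pool.Agent.Helper11X.PQ.t_VAR Pool.Agent.Helper64.PQ.t_ONE Pool.Agent.Helper98.PQ.t_TWO)
      Pool.Agent.Helper31.PQ.t_POOR)
    (target2_of Pool.Agent.Helper20.PQ.t_EX
      (t_GOOD Pool.Agent.Hx18.PQ.t_SM Pool.Agent.Helper15.PQ.t_FM)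
      Pool.Agent.Helper62K5.PQ.t_LIN Pool.Agent.Helper95.PQ.t_LIM Pool.Agent.Helper61A.PQ.t_AVG
      Pool.Agent.Helper27.PQ.t_RNG)

end Pool.Agent.Helper91K1.PQ
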