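import Pool.Agent.Helper91K1.PQ.Stm

/-!
# Close pairs of primes between consecutive squares, for almost every linear coefficient (MP_e94e4b_nt): statements

Second theorem of project PQ (helper91): for EVERY `β > 0` (in particular `β = 1`) and almost every `γ`, the upper density of the `N`
such that `m ± j` are both prime for at least `c H / log² N` of the `1 ≤ j ≤ H`, `m = ⌊β N² + γ N + g(N)⌋`, is at least `c`
(`g(N) = O(N)`). For `β = 1`, `0 < γ < 2` these primes lie between `N²` and `(N + 1)²`.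
-/

set_option autoImplicit false

open MeasureTheory Filter Topology Finset

namespace Pool.Agent.Helper91K1.PQ

/-- LIN: one parameter. (`Pool.Agent.Helper64.PQ.one_ge` and scaling by `N`.) -/
def S_LIN : Prop := ∀ u v : ℝ, u < v → ∀ L T : ℕ, 1 ≤ L → T ≤ L → ∀ N : ℕ, 1 ≤ N → ∀ w : ℝ, ∀ A : Set ℤ, Bal L T A →
  (v - u) * ((T : ℝ) / L) - 2 * L / N ≤ volume.real {y ∈ Set.Icc u v | ⌊w + y * N⌋ ∈ A}

/-- LIM: sets of uniformly positive density in all intervals at all large stages (the union of the `F i`, `i ≥ n`, and hence the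
limsup, has measure `≥ c (v - u)` in each `[u, v]`; Lebesgue's density theorem). -/
def S_LIM : Prop := ∀ c R : ℝ, 0 < c → ∀ F : ℕ → Set ℝ, (∀ i, MeasurableSet (F i)) →
  (∀ u v : ℝ, -R ≤ u → u < v → v ≤ R → ∀ᶠ i in atTop, c * (v - u) ≤ volume.real (F i ∩ Set.Icc u v)) →
  ∀ᵐ y : ℝ, y ∈ Set.Ioo (-R) R → ∃ᶠ i in atTop, y ∈ F i

open Classical in
/-- AVG: an average -/
def S_AVG : Prop := ∀ u v K : ℝ, u < v → 0 ≤ K → ∀ (S : Finset ℕ) (E : ℕ → Set ℝ), (∀ N, MeasurableSet (E N)) →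
  MeasurableSet {y : ℝ | K ≤ ((S.filter (fun N => y ∈ E N)).card : ℝ)} ∧
  ∑ N ∈ S, volume.real (E N ∩ Set.Icc u v) ≤
    S.card * volume.real ({y : ℝ | K ≤ ((S.filter (fun N => y ∈ E N)).card : ℝ)} ∩ Set.Icc u v) + K * (v - u)

/-- the property of `c, κ` in `S_EX` -/
def EXp (c κ : ℝ) : Prop := ∀ b₁ b₂ : ℝ, 0 < b₁ → b₁ < b₂ → ∀ᶠ X : ℕ in atTop,
  {k : ℕ | b₁ * (X : ℝ) ^ 2 ≤ k * Lb κ X ∧ ((k : ℝ) + 1) * Lb κ X ≤ b₂ * (X : ℝ) ^ 2 ∧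
    (pb (k * Lb κ X) (Lb κ X) : ℝ) < c * Lb κ X / Real.log (Lb κ X)}.ncard ≤ (X : ℝ) ^ (3 / 4 : ℝ)

/-- RNG: few `N` have a poor block near `β N²`. (Each `k` is near `β N²` for `O(1)` many `N ∈ (X, 2 X]`: `|β N² - β N'²| ≥ 2 β X |N - N'|`.) -/
def S_RNG : Prop := ∀ c κ : ℝ, 0 < κ → κ ≤ 1 / 10 → EXp c κ → ∀ β R : ℝ, 0 < β → 0 < R → ∀ᶠ X : ℕ in atTop,
  {N : ℕ | X < N ∧ N ≤ 2 * X ∧ ∃ k : ℕ, |(k : ℝ) * Lb κ X - β * (N : ℝ) ^ 2| ≤ R * N ∧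
    (pb (k * Lb κ X) (Lb κ X) : ℝ) < c * Lb κ X / Real.log (Lb κ X)}.ncard ≤ (X : ℝ) ^ (4 / 5 : ℝ)

/-- the second target -/
def Target2 : Prop := ∃ c κ : ℝ, 0 < c ∧ 0 < κ ∧ κ < 1 ∧ ∀ (H : ℕ → ℕ) (g : ℕ → ℝ) (G : ℝ),
  (∀ᶠ N : ℕ in atTop, Real.log N ^ 2 ≤ H N ∧ (H N : ℝ) ≤ (N : ℝ) ^ (1 - κ)) → (∀ᶠ N : ℕ in atTop, |g N| ≤ G * N) →
  ∀ β : ℝ, 0 < β → ∀ᵐ y : ℝ, ∃ᶠ X : ℕ in atTop, c * X ≤ {N : ℕ | 1 ≤ N ∧ N ≤ X ∧ Good c H g (β, y) N}.ncard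

end Pool.Agent.Helper91K1.PQ
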