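import Pool.Agent.Helper91K1.PQ.Dy
import Pool.Agent.Helper91K1.PQ.Stm3

set_option autoImplicit false

open MeasureTheory Filter Topology Finset

namespace Pool.Agent.Helper91K1.PQ

/-- asymptotics -/
theorem asy (κ d : ℝ) (hκ : 0 < κ) (hκ2 : κ ≤ 1 / 10) (hd : 0 < d) : ∀ᶠ X : ℕ in atTop,
    (X : ℝ) ^ (4 / 5 : ℝ) ≤ X / 8 ∧ 2 * (Lb κ X : ℝ) ≤ d * X := by
  have h1 : Tendsto (fun X : ℕ => (X : ℝ) ^ (1 / 5 : ℝ)) atTop atTop :=
    (tendsto_rpow_atTop (by norm_num)).comp tendsto_natCast_atTop_atTop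
  have h2 : Tendsto (fun X : ℕ => (X : ℝ) ^ κ) atTop atTop :=
    (tendsto_rpow_atTop hκ).comp tendsto_natCast_atTop_atTop
  filter_upwards [h1.eventually_ge_atTop 8, h2.eventually_ge_atTop (2 / d), eventually_ge_atTop 1] with X a1 a2 a3
  have hX0 : (0 : ℝ) < X := by exact_mod_cast a3
  constructor
  · rw [le_div_iff₀ (by norm_num)]
    calc (X : ℝ) ^ (4 / 5 : ℝ) * 8 ≤ (X : ℝ) ^ (4 / 5 : ℝ) * (X : ℝ) ^ (1 / 5 : ℝ) := by gcongr
      _ = X := by rw [← Real.rpow_add hX0]; norm_num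
  · have e1 : (Lb κ X : ℝ) ≤ (X : ℝ) ^ (1 - κ) := Nat.floor_le (by positivity)
    have e2 : 2 ≤ d * (X : ℝ) ^ κ := by
      rw [div_le_iff₀ hd] at a2; linarith
    calc 2 * (Lb κ X : ℝ) ≤ (d * (X : ℝ) ^ κ) * (X : ℝ) ^ (1 - κ) := by
          apply mul_le_mul e2 e1 (by positivity) (by positivity)
      _ = d * X := by rw [mul_assoc, ← Real.rpow_add hX0]; norm_num

theorem target2_of (hE : S_EX) (hG : S_GOOD) (hLIN : S_LIN) (hLIM : S_LIM) (hAVG : S_AVG) (hRNG : S_RNG) : Target2 := by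
  classical
  obtain ⟨c₁, κ, hc₁, hκ, hκ2, hE⟩ := hE
  obtain ⟨c₀, hc₀, hc₀1, L₁, hG⟩ := hG c₁ hc₁
  refine ⟨c₀ / 8, 2 * κ, by positivity, by linarith, by linarith, fun H g G hH hg β hβ => ?_⟩
  have hall : ∀ᵐ y : ℝ, ∀ n : ℕ, y ∈ Set.Ioo (-((n : ℝ) + 1)) ((n : ℝ) + 1) → ∃ᶠ i : ℕ in atTop,
      c₀ / 4 * ((2 ^ i : ℕ) : ℝ) ≤ {N : ℕ | 2 ^ i < N ∧ N ≤ 2 * 2 ^ i ∧ Good c₀ H g (β, y) N}.ncard := by
    rw [ae_all_iff]
    intro n
    set R : ℝ := (n : ℝ) + 1 with hR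
    have hR0 : 0 < R := by positivity
    have hgt : Tendsto (fun N : ℕ => g N / (N : ℝ) ^ 2) atTop (𝓝 0) := by
      have h1 : Tendsto (fun N : ℕ => |G| * (N : ℝ)⁻¹) atTop (𝓝 (|G| * 0)) :=
        (tendsto_inv_atTop_nhds_zero_nat).const_mul _
      rw [mul_zero] at h1
      apply squeeze_zero_norm' _ h1
      filter_upwards [hg, eventually_ge_atTop 1] with N hN hN1
      have hN0 : (0 : ℝ) < N := by exact_mod_cast hN1
      rw [Real.norm_eq_abs, abs_div, abs_of_pos (by positivity : (0 : ℝ) < (N : ℝ) ^ 2), div_le_iff₀ (by positivity)]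
      refine hN.trans ?_
      have : |G| * (N : ℝ)⁻¹ * (N : ℝ) ^ 2 = |G| * N := by field_simp
      rw [this]
      gcongr
      exact le_abs_self G
    obtain ⟨b₁, b₂, hb₁, hb₂, hhit⟩ := hit (β / 2) (2 * β) R κ c₁ c₀ L₁ (by positivity) (by linarith) hR0 hκ hκ2 hG H g hH hgt
    have hR'0 : 0 < R + |G| + 2 := by positivity
    have hrng := hRNG c₁ κ hκ hκ2 hE β (R + |G| + 2) hβ hR'0
    obtain ⟨X₁, hX₁⟩ := eventually_atTop.1 (hhit.and (hrng.and ((Lb_ev κ 1 (max L₁ 3) hκ hκ2).and hg)))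
    -- the sets
    have hsets : ∀ X : ℕ, ∃ (T : ℕ) (A : ℕ → Set ℤ) (S : Finset ℕ), X₁ ≤ X →
        T ≤ Lb κ X ∧ c₀ * Lb κ X ≤ T ∧ (∀ N, Bal (Lb κ X) T (A N)) ∧ S ⊆ Ioc X (2 * X) ∧
        (X : ℝ) - (X : ℝ) ^ (4 / 5 : ℝ) ≤ S.card ∧
        ∀ N ∈ S, ∀ y ∈ Set.Icc (-R) R, mm (g N) N (β, y) ∈ A N → Good c₀ H g (β, y) N := by
      intro X
      by_cases hX : X₁ ≤ X
      swap
      · exact ⟨0, fun _ => ∅, ∅, fun h => absurd h hX⟩
      obtain ⟨h1, h2, ⟨hL1, hLb, hLc, -, -⟩, -⟩ := hX₁ X hX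
      set L := Lb κ X with hL
      have hLr : (1 : ℝ) ≤ L := by exact_mod_cast hLb
      have hTL : ⌈c₀ * L⌉₊ ≤ L := by
        apply Nat.ceil_le.2
        nlinarith
      obtain ⟨A, hA1, hA2⟩ := exists_A c₀ H L ⌈c₀ * L⌉₊ hLb hTL
      set Bd : Set ℕ := {N : ℕ | X < N ∧ N ≤ 2 * X ∧ ∃ k : ℕ, |(k : ℝ) * L - β * (N : ℝ) ^ 2| ≤ (R + |G| + 2) * N ∧
        (pb (k * L) L : ℝ) < c₁ * L / Real.log L} with hBd
      have hBdfin : Bd.Finite := (Set.finite_Iic (2 * X)).subset fun N hN => hN.2.1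
      refine ⟨⌈c₀ * L⌉₊, A, Ioc X (2 * X) \ hBdfin.toFinset, fun _ => ⟨hTL, Nat.le_ceil _, hA1, sdiff_subset, ?_, ?_⟩⟩
      · have e1 : (Ioc X (2 * X)).card ≤ (Ioc X (2 * X) \ hBdfin.toFinset).card + hBdfin.toFinset.card :=
          Finset.card_le_card_sdiff_add_card
        have e2 : (Ioc X (2 * X)).card = X := by rw [Nat.card_Ioc]; omega
        have e3 : (hBdfin.toFinset.card : ℝ) ≤ (X : ℝ) ^ (4 / 5 : ℝ) := by
          rw [← Set.ncard_eq_toFinset_card Bd hBdfin]; exact h2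
        rw [e2] at e1
        have e4 : (X : ℝ) ≤ (Ioc X (2 * X) \ hBdfin.toFinset).card + hBdfin.toFinset.card := by exact_mod_cast e1
        linarith
      · intro N hN y hy hz
        rw [Finset.mem_sdiff, Set.Finite.mem_toFinset, Finset.mem_Ioc] at hN
        obtain ⟨⟨hN1, hN2⟩, hNB⟩ := hN
        have hbox : (β, y) ∈ box (β / 2) (2 * β) R := ⟨⟨by simp; linarith, by simp; linarith⟩, hy⟩
        obtain ⟨k, hk1, hk2, hk3, hk4⟩ := h1 N hN1 hN2 (β, y) hbox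
        have hLN' : L ≤ N := by omega
        have hLN : (L : ℝ) ≤ N := by exact_mod_cast hLN'
        have hN0 : (1 : ℝ) ≤ N := hLr.trans hLN
        have hgN := (hX₁ N (by omega)).2.2.2
        have hk : c₁ * L / Real.log L ≤ (pb (k * L) L : ℝ) := by
          by_contra hcon
          push Not at hcon
          apply hNB
          refine ⟨hN1, hN2, k, ?_, hcon⟩
          have f1 : ((k : ℝ)) * L < (mm (g N) N (β, y) : ℝ) := by exact_mod_cast hk1.1
          have f2 : (mm (g N) N (β, y) : ℝ) ≤ k * L + L := by exact_mod_cast hk1.2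
          have f3 : (mm (g N) N (β, y) : ℝ) ≤ β * (N : ℝ) ^ 2 + y * N + g N := Int.floor_le _
          have f4 : β * (N : ℝ) ^ 2 + y * N + g N - 1 < (mm (g N) N (β, y) : ℝ) := Int.sub_one_lt_floor _
          obtain ⟨g1, g2⟩ := abs_le.1 hgN
          obtain ⟨y1, y2⟩ := hy
          have f5 : y * N ≤ R * N := by gcongr
          have f6 : -(R * N) ≤ y * N := by nlinarith
          have f7 : G * N ≤ |G| * N := by
            gcongr; exact le_abs_self G
          rw [abs_le]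
          constructor
          · nlinarith
          · nlinarith
        have h5 := hk4 hk
        have h6 : ⌈c₀ * L⌉₊ ≤ ((Ioc (k * L) (k * L + L)).filter
            (fun m => c₀ * H N / Real.log L ^ 2 ≤ (rp (H N) m : ℝ))).card := Nat.ceil_le.2 h5
        have h7 := hA2 N k h6 _ hz hk1
        unfold Good
        refine le_trans ?_ h7
        have h8 : 3 ≤ L := (le_max_right _ _).trans hL1
        have h9 : (3 : ℝ) ≤ L := by exact_mod_cast h8
        have hLl : 0 < Real.log L := Real.log_pos (by linarith)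
        have : Real.log L ≤ Real.log N := Real.log_le_log (by linarith) hLN
        gcongr
    choose T A S hTAS using hsets
    set E : ℕ → ℕ → Set ℝ := fun X N => {y : ℝ | ⌊(β * (N : ℝ) ^ 2 + g N) + y * N⌋ ∈ A X N} with hEdef
    have hEm : ∀ X N, MeasurableSet (E X N) := by
      intro X N
      have h1 : Measurable fun y : ℝ => ⌊(β * (N : ℝ) ^ 2 + g N) + y * N⌋ := Int.measurable_floor.comp (by fun_prop)
      exact h1 MeasurableSet.of_discrete
    set F : ℕ → Set ℝ := fun i => {y : ℝ | c₀ / 4 * ((2 ^ i : ℕ) : ℝ) ≤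
      (((S (2 ^ i)).filter (fun N => y ∈ E (2 ^ i) N)).card : ℝ)} with hF
    have hpow : ∀ i : ℕ, i ≤ 2 ^ i := fun i => Nat.lt_two_pow_self.le
    have htend : Tendsto (fun i : ℕ => 2 ^ i) atTop atTop := tendsto_atTop_mono hpow tendsto_id
    have hFm : ∀ i, MeasurableSet (F i) := fun i =>
      (hAVG 0 1 (c₀ / 4 * ((2 ^ i : ℕ) : ℝ)) one_pos (by positivity) (S (2 ^ i)) (E (2 ^ i)) (hEm _)).1
    have hFd : ∀ u v : ℝ, -R ≤ u → u < v → v ≤ R → ∀ᶠ i in atTop, c₀ / 2 * (v - u) ≤ volume.real (F i ∩ Set.Icc u v) := by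
      intro u v hu huv hv
      have hd : 0 < v - u := by linarith
      have hasy := htend.eventually ((asy κ (c₀ * (v - u) / 8) hκ hκ2 (by positivity)).and
        ((eventually_ge_atTop X₁).and (eventually_ge_atTop 1)))
      filter_upwards [hasy] with i hi
      obtain ⟨⟨s1, s2⟩, s3, s4⟩ := hi
      obtain ⟨t1, t2, t3, t4, t5, -⟩ := hTAS (2 ^ i) s3
      obtain ⟨-, h2⟩ := hAVG u v (c₀ / 4 * ((2 ^ i : ℕ) : ℝ)) huv (by positivity) (S (2 ^ i)) (E (2 ^ i)) (hEm _)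
      obtain ⟨-, -, ⟨hL1, hLb, hLc, -, -⟩, -⟩ := hX₁ (2 ^ i) s3
      set X : ℕ := 2 ^ i with hX
      set L := Lb κ X with hL
      have hX0 : (0 : ℝ) < X := by exact_mod_cast s4
      have hL0 : (0 : ℝ) < L := by exact_mod_cast hLb
      have hlow : ∀ N ∈ S X, 7 / 8 * (c₀ * (v - u)) ≤ volume.real (E X N ∩ Set.Icc u v) := by
        intro N hN
        have hN1 := Finset.mem_Ioc.1 (t4 hN)
        have hN2 : 1 ≤ N := by omega
        have h3 := hLIN u v huv L (T X) hLb t1 N hN2 (β * (N : ℝ) ^ 2 + g N) (A X N) (t3 N)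
        have e1 : {y | y ∈ Set.Icc u v ∧ ⌊(β * (N : ℝ) ^ 2 + g N) + y * N⌋ ∈ A X N} = E X N ∩ Set.Icc u v := by
          ext y
          simp only [hEdef, Set.mem_ofPred_eq, Set.mem_inter_iff]
          tauto
        have h4 : {y ∈ Set.Icc u v | ⌊(β * (N : ℝ) ^ 2 + g N) + y * N⌋ ∈ A X N} = E X N ∩ Set.Icc u v := e1
        rw [h4] at h3
        refine le_trans ?_ h3
        have hXN : (X : ℝ) ≤ N := by exact_mod_cast hN1.1.le
        have hN0 : (0 : ℝ) < N := by linarith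
        have e2 : c₀ ≤ (T X : ℝ) / L := by rw [le_div_iff₀ hL0]; exact t2
        have e3 : (v - u) * c₀ ≤ (v - u) * ((T X : ℝ) / L) := by gcongr
        have e4 : 2 * (L : ℝ) / N ≤ c₀ * (v - u) / 8 := by
          rw [div_le_iff₀ hN0]
          refine s2.trans ?_
          have : 0 ≤ c₀ * (v - u) / 8 := by positivity
          gcongr
        linarith
      have hsum : (S X).card * (7 / 8 * (c₀ * (v - u))) ≤ ∑ N ∈ S X, volume.real (E X N ∩ Set.Icc u v) := by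
        have := Finset.card_nsmul_le_sum (S X) (fun N => volume.real (E X N ∩ Set.Icc u v)) _ hlow
        rwa [nsmul_eq_mul] at this
      have hcard : ((S X).card : ℝ) ≤ X := by
        have := Finset.card_le_card t4
        rw [Nat.card_Ioc] at this
        have h5 : (S X).card ≤ X := by omega
        exact_mod_cast h5
      have hcard2 : 7 / 8 * (X : ℝ) ≤ (S X).card := by linarith
      have hcd : 0 < c₀ * (v - u) := by positivity
      have hV0 : 0 ≤ volume.real (F i ∩ Set.Icc u v) := measureReal_nonneg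
      have h6 : ((S X).card : ℝ) * volume.real (F i ∩ Set.Icc u v) ≤ X * volume.real (F i ∩ Set.Icc u v) := by gcongr
      have h7 : (X : ℝ) * (c₀ / 2 * (v - u)) ≤ X * volume.real (F i ∩ Set.Icc u v) := by
        have e5 : 7 / 8 * (X : ℝ) * (7 / 8 * (c₀ * (v - u))) ≤ (S X).card * (7 / 8 * (c₀ * (v - u))) := by gcongr
        have e6 : c₀ / 4 * (X : ℝ) * (v - u) = 1 / 4 * (X * (c₀ * (v - u))) := by ring
        have e7 : 7 / 8 * (X : ℝ) * (7 / 8 * (c₀ * (v - u))) = 49 / 64 * (X * (c₀ * (v - u))) := by ring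
        have e8 : (X : ℝ) * (c₀ / 2 * (v - u)) = 1 / 2 * (X * (c₀ * (v - u))) := by ring
        have e9 : 0 < (X : ℝ) * (c₀ * (v - u)) := by positivity
        have h2' : ∑ N ∈ S X, volume.real (E X N ∩ Set.Icc u v) ≤
            (S X).card * volume.real (F i ∩ Set.Icc u v) + c₀ / 4 * (X : ℝ) * (v - u) := h2
        linarith
      exact le_of_mul_le_mul_left h7 hX0
    have hlim := hLIM (c₀ / 2) R (by positivity) F hFm hFd
    filter_upwards [hlim] with y hy hyR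
    refine ((hy hyR).and_eventually (htend.eventually (eventually_ge_atTop X₁))).mono ?_
    rintro i ⟨hi1, hi2⟩
    obtain ⟨t1, t2, t3, t4, t5, t6⟩ := hTAS (2 ^ i) hi2
    have hi1' : c₀ / 4 * ((2 ^ i : ℕ) : ℝ) ≤ (((S (2 ^ i)).filter (fun N => y ∈ E (2 ^ i) N)).card : ℝ) := hi1
    refine hi1'.trans ?_
    have hfin : {N : ℕ | 2 ^ i < N ∧ N ≤ 2 * 2 ^ i ∧ Good c₀ H g (β, y) N}.Finite :=
      (Set.finite_Iic (2 * 2 ^ i)).subset fun N hN => hN.2.1
    rw [← Set.ncard_coe_finset]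
    have hle := Set.ncard_le_ncard (s := ((((S (2 ^ i)).filter (fun N => y ∈ E (2 ^ i) N)) : Finset ℕ) : Set ℕ))
      (t := {N : ℕ | 2 ^ i < N ∧ N ≤ 2 * 2 ^ i ∧ Good c₀ H g (β, y) N}) (by
        intro N hN
        rw [Finset.mem_coe, Finset.mem_filter] at hN
        obtain ⟨hN1, hN2⟩ := hN
        have hN3 := Finset.mem_Ioc.1 (t4 hN1)
        refine ⟨hN3.1, hN3.2, t6 N hN1 y ⟨hyR.1.le, hyR.2.le⟩ ?_⟩
        have hN4 : ⌊(β * (N : ℝ) ^ 2 + g N) + y * N⌋ ∈ A (2 ^ i) N := hN2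
        have e : mm (g N) N (β, y) = ⌊(β * (N : ℝ) ^ 2 + g N) + y * N⌋ := by
          unfold mm
          congr 1
          ring
        rw [e]; exact hN4) hfin
    exact_mod_cast hle
  filter_upwards [hall] with y hy
  obtain ⟨n, hn⟩ := exists_nat_ge |y|
  have hyR : y ∈ Set.Ioo (-((n : ℝ) + 1)) ((n : ℝ) + 1) := by
    obtain ⟨h1, h2⟩ := abs_le.1 hn
    exact ⟨by linarith, by linarith⟩
  have h1 := hy n hyR
  have htend : Tendsto (fun i : ℕ => 2 * 2 ^ i) atTop atTop :=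
    tendsto_atTop_mono (fun i => (Nat.lt_two_pow_self.le : i ≤ 2 ^ i).trans (by omega)) tendsto_id
  refine htend.frequently (h1.mono ?_)
  intro i hi
  have h5 : {N : ℕ | 2 ^ i < N ∧ N ≤ 2 * 2 ^ i ∧ Good c₀ H g (β, y) N} ⊆
      {N : ℕ | 1 ≤ N ∧ N ≤ 2 * 2 ^ i ∧ Good (c₀ / 8) H g (β, y) N} := by
    rintro N ⟨a1, a2, a3⟩
    refine ⟨by omega, a2, ?_⟩
    unfold Good at a3 ⊢
    refine le_trans ?_ a3
    have hHN : (0 : ℝ) ≤ H N := by positivity
    gcongr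
    linarith
  have hfin : {N : ℕ | 1 ≤ N ∧ N ≤ 2 * 2 ^ i ∧ Good (c₀ / 8) H g (β, y) N}.Finite :=
    (Set.finite_Iic (2 * 2 ^ i)).subset fun N hN => hN.2.1
  have h6 : ({N : ℕ | 2 ^ i < N ∧ N ≤ 2 * 2 ^ i ∧ Good c₀ H g (β, y) N}.ncard : ℝ) ≤
      ({N : ℕ | 1 ≤ N ∧ N ≤ 2 * 2 ^ i ∧ Good (c₀ / 8) H g (β, y) N}.ncard : ℝ) := by
    exact_mod_cast Set.ncard_le_ncard h5 hfin
  refine le_trans ?_ (hi.trans h6)
  push_cast
  linarith

end Pool.Agent.Helper91K1.PQ
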